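import Pool.Agent.H41.SS.Targets

/-!
# Row CHO (board ss_modules)
-/

set_option autoImplicit false

open Finset Pool.Agent.H97.RK Pool.Agent.H97.RL Pool.Agent.H41.SS

namespace Pool.Agent.H51.SSM

theorem pf_CHO : T_CHO := by
  constructor
  · intro n a ha
    have ha' : (0 : ℝ) < a := by exact_mod_cast ha
    have h1 : (n.choose a : ℝ) ≤ (n : ℝ) ^ a / a.factorial := Nat.choose_le_pow_div a n
    have h2 : (a : ℝ) ^ a / a.factorial ≤ Real.exp a :=
      Real.pow_div_factorial_le_exp (x := (a : ℝ)) ha'.le a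
    have h3 : (n : ℝ) ^ a / a.factorial = ((n : ℝ) / a) ^ a * ((a : ℝ) ^ a / a.factorial) := by
      rw [div_pow]
      have h4 : (a : ℝ) ^ a ≠ 0 := (pow_pos ha' a).ne'
      field_simp
    have h5 : Real.exp (a : ℝ) = Real.exp 1 ^ a := by
      rw [← Real.exp_nat_mul, mul_one]
    calc (n.choose a : ℝ) ≤ (n : ℝ) ^ a / a.factorial := h1
      _ = ((n : ℝ) / a) ^ a * ((a : ℝ) ^ a / a.factorial) := h3
      _ ≤ ((n : ℝ) / a) ^ a * Real.exp a := by
        apply mul_le_mul_of_nonneg_left h2
        positivity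
      _ = (Real.exp 1 * n / a) ^ a := by
        rw [h5, ← mul_pow]
        congr 1
        ring
  · intro n a ha han
    have ha' : (0 : ℝ) < a := by exact_mod_cast ha
    have hn' : (0 : ℝ) < n := by exact_mod_cast (lt_of_lt_of_le ha han)
    have han' : (a : ℝ) ≤ n := by exact_mod_cast han
    have hq0 : (0 : ℝ) < (a : ℝ) / n := by positivity
    have hq1 : (a : ℝ) / n ≤ 1 := by rw [div_le_one hn']; exact han'
    have h1 : (bl n a : ℝ) * ((a : ℝ) / n) ^ a ≤ (1 + (a : ℝ) / n) ^ n := by
      unfold bl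
      push_cast
      rw [sum_mul, add_comm (1 : ℝ), add_pow]
      calc ∑ i ∈ range (a + 1), (n.choose i : ℝ) * ((a : ℝ) / n) ^ a
          ≤ ∑ i ∈ range (a + 1), ((a : ℝ) / n) ^ i * 1 ^ (n - i) * (n.choose i : ℝ) := by
            apply sum_le_sum
            intro i hi
            have hi' : i ≤ a := by
              have := mem_range.1 hi
              omega
            rw [one_pow, mul_one, mul_comm]
            apply mul_le_mul_of_nonneg_right _ (Nat.cast_nonneg _)
            exact pow_le_pow_of_le_one hq0.le hq1 hi'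
        _ ≤ ∑ i ∈ range (n + 1), ((a : ℝ) / n) ^ i * 1 ^ (n - i) * (n.choose i : ℝ) := by
            apply sum_le_sum_of_subset_of_nonneg
            · exact range_subset_range.2 (by omega)
            · intro i _ _
              positivity
    have h2 : (1 + (a : ℝ) / n) ^ n ≤ Real.exp 1 ^ a := by
      have h3 : 1 + (a : ℝ) / n ≤ Real.exp ((a : ℝ) / n) := by
        have := Real.add_one_le_exp ((a : ℝ) / n)
        linarith
      calc (1 + (a : ℝ) / n) ^ n ≤ Real.exp ((a : ℝ) / n) ^ n :=
            pow_le_pow_left₀ (by positivity) h3 n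
        _ = Real.exp 1 ^ a := by
            rw [← Real.exp_nat_mul, ← Real.exp_nat_mul, mul_one]
            congr 1
            field_simp
    have h4 : (bl n a : ℝ) = (bl n a : ℝ) * ((a : ℝ) / n) ^ a * ((n : ℝ) / a) ^ a := by
      rw [mul_assoc, ← mul_pow]
      have h5 : (a : ℝ) / n * (n / a) = 1 := by field_simp
      rw [h5, one_pow, mul_one]
    rw [h4]
    calc (bl n a : ℝ) * ((a : ℝ) / n) ^ a * ((n : ℝ) / a) ^ a
        ≤ Real.exp 1 ^ a * ((n : ℝ) / a) ^ a := by
          apply mul_le_mul_of_nonneg_right (h1.trans h2)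
          positivity
      _ = (Real.exp 1 * n / a) ^ a := by
          rw [← mul_pow]
          congr 1
          ring

end Pool.Agent.H51.SSM
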